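import Pool.Agent.U687.PT.Lin

/-!
# An upper bound for the number of the nonsingular perturbed and bordered systems
-/

set_option autoImplicit false

open scoped Classical

namespace Pool.Agent.U687.PT

open Finset
open Pool.Agent.Y703.CX (lam)
open Q283.TQ (NSg mu Bs)

/-- the equations of the primes which are `1` modulo `3` have a nonzero solution -/
theorem exists_sol {D : ℕ} (hD : Bs D) (a : S1 D → ZMod 3) : ∃ g : D.primeFactors → ZMod 3, g ≠ 0 ∧
    ∀ p ∈ D.primeFactors, p % 3 = 1 →
      ∑ r ∈ D.primeFactors, mu D r * lam p r * (ext0 g r - ext0 g p) = ext0 a p * ext0 g p := by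
  obtain ⟨q, hqm, hq2, hqn, hpf⟩ := exists_q hD
  have hext : ∀ (g : D.primeFactors → ZMod 3) (n : ℕ) (hn : n ∈ D.primeFactors),
      ext0 g n = g ⟨n, hn⟩ := fun g n hn => ext0_of g ⟨n, hn⟩
  have hsub : ∀ p : S1 D, (p : ℕ) ∈ D.primeFactors := fun p => (Finset.mem_filter.1 p.2).1
  set f : (D.primeFactors → ZMod 3) →ₗ[ZMod 3] (S1 D → ZMod 3) :=
    { toFun := fun g p => ∑ r : D.primeFactors, mu D r * lam p r * (g r - g ⟨p, hsub p⟩) -
        a p * g ⟨p, hsub p⟩
      map_add' := by
        intro g h
        funext p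
        simp only [Pi.add_apply]
        have e : ∀ r : D.primeFactors, mu D r * lam p r * (g r + h r - (g ⟨p, hsub p⟩ +
            h ⟨p, hsub p⟩)) = mu D r * lam p r * (g r - g ⟨p, hsub p⟩) +
            mu D r * lam p r * (h r - h ⟨p, hsub p⟩) := fun r => by ring
        rw [Finset.sum_congr rfl fun r _ => e r, Finset.sum_add_distrib]
        ring
      map_smul' := by
        intro c g
        funext p
        simp only [Pi.smul_apply, smul_eq_mul, RingHom.id_apply]
        have e : ∀ r : D.primeFactors, mu D r * lam p r * (c * g r - c * g ⟨p, hsub p⟩) =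
            c * (mu D r * lam p r * (g r - g ⟨p, hsub p⟩)) := fun r => by ring
        rw [Finset.sum_congr rfl fun r _ => e r, ← Finset.mul_sum]
        ring } with hf
  have hlt : Module.finrank (ZMod 3) (S1 D → ZMod 3) <
      Module.finrank (ZMod 3) (D.primeFactors → ZMod 3) := by
    rw [Module.finrank_fintype_fun_eq_card, Module.finrank_fintype_fun_eq_card, Fintype.card_coe,
      Fintype.card_coe]
    have e1 : D.primeFactors.card = (S1 D).card + 1 := by
      conv_lhs => rw [hpf]
      exact Finset.card_insert_of_notMem hqn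
    omega
  obtain ⟨g, hg, hg0⟩ := (Submodule.ne_bot_iff _).1 (LinearMap.ker_ne_bot_of_finrank_lt (f := f) hlt)
  refine ⟨g, hg0, fun p hp hp1 => ?_⟩
  have hpS : p ∈ S1 D := Finset.mem_filter.2 ⟨hp, hp1⟩
  have h1 : f g ⟨p, hpS⟩ = 0 := by
    rw [LinearMap.mem_ker] at hg
    rw [hg]
    rfl
  have h2 : f g ⟨p, hpS⟩ = ∑ r : D.primeFactors, mu D r * lam p r * (g r - g ⟨p, hp⟩) -
        a ⟨p, hpS⟩ * g ⟨p, hp⟩ := rfl
  rw [h2, sub_eq_zero] at h1
  have e1 : ext0 a p = a ⟨p, hpS⟩ := ext0_of a ⟨p, hpS⟩
  rw [e1, hext g p hp, ← h1, ← Finset.sum_coe_sort D.primeFactors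
    (fun r => mu D r * lam p r * (ext0 g r - g ⟨p, hp⟩))]
  exact Finset.sum_congr rfl fun r _ => by rw [ext0_of]

theorem good_le {D : ℕ} (hD : Bs D) : good D ≤ 2 * 3 ^ (2 * (S1 D).card) := by
  obtain ⟨q, hqm, hq2, hqn, hpf⟩ := exists_q hD
  have hcardpf : D.primeFactors.card = (S1 D).card + 1 := by
    conv_lhs => rw [hpf]
    exact Finset.card_insert_of_notMem hqn
  have hcard : Nat.card {t : ZMod 3 // t ≠ 0} = 2 := by
    rw [Nat.card_eq_fintype_card]; decide
  have key : ∀ a : S1 D → ZMod 3,
      Nat.card {b : D.primeFactors → ZMod 3 // NSg D (ext0 a) (ext0 b)} ≤ 2 * 3 ^ (S1 D).card := by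
    intro a
    obtain ⟨g, hg0, hg⟩ := exists_sol hD a
    obtain ⟨r0, hr0⟩ : ∃ r0, g r0 ≠ 0 := by
      by_contra h
      push Not at h
      exact hg0 (funext h)
    have hm0 : mu D r0 * g r0 ≠ 0 := mul_ne_zero (hD.mu_ne r0 r0.2) hr0
    have hne : ∀ b : D.primeFactors → ZMod 3, NSg D (ext0 a) (ext0 b) →
        ∑ r : D.primeFactors, mu D r * b r * g r ≠ 0 := by
      intro b hb h0
      apply hg0
      funext r
      rw [← ext0_of g r]
      refine hb (ext0 g) hg ?_ r r.2
      rw [← h0, ← Finset.sum_coe_sort D.primeFactors (fun r => mu D r * ext0 b r * ext0 g r)]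
      exact Finset.sum_congr rfl fun r _ => by rw [ext0_of, ext0_of]
    have hinj : Function.Injective
        (fun b : {b : D.primeFactors → ZMod 3 // NSg D (ext0 a) (ext0 b)} =>
          ((⟨_, hne b.1 b.2⟩ : {t : ZMod 3 // t ≠ 0}),
            (fun r => b.1 r.1 : {r : D.primeFactors // r ≠ r0} → ZMod 3))) := by
      intro b b' h
      rw [Prod.mk.injEq] at h
      obtain ⟨h1, h2⟩ := h
      have h1' := congrArg Subtype.val h1
      simp only at h1'
      have h3 : ∀ r : D.primeFactors, r ≠ r0 → b.1 r = b'.1 r := fun r hr =>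
        congrFun h2 ⟨r, hr⟩
      have h4 : mu D r0 * b.1 r0 * g r0 = mu D r0 * b'.1 r0 * g r0 := by
        rw [← Finset.add_sum_erase _ (fun r : D.primeFactors => mu D r * b.1 r * g r)
            (Finset.mem_univ r0),
          ← Finset.add_sum_erase _ (fun r : D.primeFactors => mu D r * b'.1 r * g r)
            (Finset.mem_univ r0)] at h1'
        have h5 : ∑ r ∈ Finset.univ.erase r0, mu D r * b.1 r * g r =
            ∑ r ∈ Finset.univ.erase r0, mu D r * b'.1 r * g r :=
          Finset.sum_congr rfl fun r hr => by rw [h3 r (Finset.ne_of_mem_erase hr)]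
        rw [h5] at h1'
        exact add_right_cancel h1'
      apply Subtype.ext
      funext r
      by_cases hr : r = r0
      · rw [hr]
        have h6 : (b.1 r0 - b'.1 r0) * (mu D r0 * g r0) = 0 := by linear_combination h4
        rcases mul_eq_zero.1 h6 with h7 | h7
        · exact sub_eq_zero.1 h7
        · exact absurd h7 hm0
      · exact h3 r hr
    have h2 := Nat.card_le_card_of_injective _ hinj
    rw [Nat.card_prod, hcard, Nat.card_fun] at h2
    have e1 : Nat.card {r : D.primeFactors // r ≠ r0} = (S1 D).card := by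
      rw [Nat.card_eq_fintype_card, Fintype.card_subtype_compl, Fintype.card_coe, hcardpf,
        Fintype.card_subtype_eq]
      rfl
    rw [e1] at h2
    simpa using h2
  have e2 : good D = ∑ a : S1 D → ZMod 3,
      Nat.card {b : D.primeFactors → ZMod 3 // NSg D (ext0 a) (ext0 b)} := by
    unfold good
    rw [← Nat.card_sigma]
    exact Nat.card_congr
      { toFun := fun x => ⟨x.1.1, x.1.2, x.2⟩
        invFun := fun x => ⟨(x.1, x.2.1), x.2.2⟩
        left_inv := fun x => rfl
        right_inv := fun x => rfl }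
  rw [e2]
  refine (Finset.sum_le_sum fun a _ => key a).trans ?_
  rw [Finset.sum_const, Finset.card_univ, Fintype.card_fun, Fintype.card_coe, ZMod.card, smul_eq_mul,
    two_mul (S1 D).card, pow_add]
  exact le_of_eq (by ring)

end Pool.Agent.U687.PT
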