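import Mathlib

/-!
# The number of the nonsingular diagonal perturbations of a matrix over the field with three elements
-/

set_option autoImplicit false

namespace Pool.Agent.U687.PT

open Finset Matrix

/-- the number of the diagonal perturbations which are nonsingular is at least `2 ^ n` -/
def PD (α : Type) [Fintype α] : Prop :=
  ∀ (_ : DecidableEq α) (A : Matrix α α (ZMod 3)),
    2 ^ Fintype.card α ≤ Nat.card {a : α → ZMod 3 // (A + diagonal a).det ≠ 0}

theorem pd_equiv (α β : Type) [Fintype β] (e : α ≃ β)
    (h : @PD α (Fintype.ofEquiv β e.symm)) : PD β := by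
  classical
  letI : Fintype α := Fintype.ofEquiv β e.symm
  intro _ A
  have h1 := h (Classical.decEq α) (A.submatrix e e)
  rw [Fintype.card_congr e] at h1
  refine h1.trans (le_of_eq ?_)
  refine Nat.card_congr ?_
  refine
    { toFun := fun a => ⟨a.1 ∘ e.symm, ?_⟩
      invFun := fun a => ⟨a.1 ∘ e, ?_⟩
      left_inv := fun a => ?_
      right_inv := fun a => ?_ }
  · have h2 := a.2
    intro h3
    apply h2
    refine Eq.trans ?_ h3
    rw [← Matrix.det_submatrix_equiv_self e (A + diagonal (a.1 ∘ e.symm))]
    congr 1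
    ext i j
    simp only [Matrix.add_apply, Matrix.submatrix_apply, Matrix.diagonal_apply, Function.comp,
      e.symm_apply_apply, e.injective.eq_iff]
  · have h2 := a.2
    intro h3
    apply h2
    refine Eq.trans ?_ h3
    rw [← Matrix.det_submatrix_equiv_self e (A + diagonal a.1)]
    congr 1
    ext i j
    simp only [Matrix.add_apply, Matrix.submatrix_apply, Matrix.diagonal_apply, Function.comp,
      e.injective.eq_iff]
  · apply Subtype.ext
    funext i
    simp
  · apply Subtype.ext
    funext i
    simp

theorem pd_empty : PD PEmpty := by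
  intro _ A
  rw [Fintype.card_eq_zero, pow_zero]
  have : Nonempty {a : PEmpty → ZMod 3 // (A + diagonal a).det ≠ 0} :=
    ⟨⟨fun _ => 0, by rw [Matrix.det_isEmpty]; exact one_ne_zero⟩⟩
  exact Nat.card_pos

theorem pd_option (α : Type) [Fintype α] (h : PD α) : PD (Option α) := by
  classical
  intro _ A
  rw [Fintype.card_option]
  set e : α ⊕ Unit ≃ Option α := (Equiv.optionEquivSumPUnit α).symm with he
  set A' : Matrix (α ⊕ Unit) (α ⊕ Unit) (ZMod 3) := A.submatrix e e with hA'
  have h1 := h (Classical.decEq α) A'.toBlocks₁₁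
  -- the Schur complement
  have hcard : Nat.card {t : ZMod 3 // t ≠ 0} = 2 := by
    rw [Nat.card_eq_fintype_card]; decide
  have key : ∀ a : {a : α → ZMod 3 // (A'.toBlocks₁₁ + diagonal a).det ≠ 0}, ∃ c : ZMod 3,
      ∀ t : ZMod 3, t ≠ 0 →
        (A + diagonal (fun i => Sum.elim a.1 (fun _ : Unit => c + t) (e.symm i))).det ≠ 0 := by
    intro a
    have hu : IsUnit (A'.toBlocks₁₁ + diagonal a.1).det := Ne.isUnit a.2
    letI : Invertible (A'.toBlocks₁₁ + diagonal a.1) := Matrix.invertibleOfIsUnitDet _ hu
    set x : ZMod 3 := A'.toBlocks₂₂ () () -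
      (A'.toBlocks₂₁ * ⅟(A'.toBlocks₁₁ + diagonal a.1) * A'.toBlocks₁₂) () () with hx
    refine ⟨-x, fun t ht => ?_⟩
    rw [← Matrix.det_submatrix_equiv_self e]
    have e1 : (A + diagonal (fun i => Sum.elim a.1 (fun _ : Unit => -x + t) (e.symm i))).submatrix
        e e = Matrix.fromBlocks (A'.toBlocks₁₁ + diagonal a.1) A'.toBlocks₁₂ A'.toBlocks₂₁
          (A'.toBlocks₂₂ + Matrix.of fun _ _ => -x + t) := by
      ext i j
      rw [Matrix.submatrix_apply, Matrix.add_apply, Matrix.diagonal_apply, e.symm_apply_apply]
      rcases i with i | i <;> rcases j with j | j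
      · by_cases hij : i = j
        · subst hij
          rw [if_pos rfl, Matrix.fromBlocks_apply₁₁, Matrix.add_apply, Matrix.diagonal_apply_eq]
          rfl
        · rw [if_neg (by simpa using hij), Matrix.fromBlocks_apply₁₁, Matrix.add_apply,
            Matrix.diagonal_apply_ne _ hij]
          rfl
      · rw [if_neg (by simp), add_zero]
        rfl
      · rw [if_neg (by simp), add_zero]
        rfl
      · rw [if_pos (by simp)]
        rfl
    rw [e1, Matrix.det_fromBlocks₁₁]
    refine mul_ne_zero a.2 ?_
    rw [Matrix.det_unique]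
    simp only [Matrix.sub_apply, Matrix.add_apply, Matrix.of_apply]
    have e3 : (default : Unit) = () := rfl
    rw [e3]
    have e4 : A'.toBlocks₂₂ () () + (-x + t) -
        (A'.toBlocks₂₁ * ⅟(A'.toBlocks₁₁ + diagonal a.1) * A'.toBlocks₁₂) () () = t := by
      rw [hx]; ring
    rw [e4]
    exact ht
  choose c hc using key
  have hinj : Function.Injective
      (fun y : {a : α → ZMod 3 // (A'.toBlocks₁₁ + diagonal a).det ≠ 0} × {t : ZMod 3 // t ≠ 0} =>
        (⟨_, hc y.1 y.2.1 y.2.2⟩ : {a : Option α → ZMod 3 // (A + diagonal a).det ≠ 0})) := by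
    rintro ⟨a, t⟩ ⟨a', t'⟩ hh
    have h2 := congrArg Subtype.val hh
    simp only at h2
    have h3 : a = a' := by
      apply Subtype.ext
      funext i
      have := congrFun h2 (e (Sum.inl i))
      simpa using this
    subst h3
    have h4 := congrFun h2 (e (Sum.inr ()))
    have h5 : t = t' := by
      apply Subtype.ext
      simpa using h4
    rw [h5]
  have h2 := Nat.card_le_card_of_injective _ hinj
  rw [Nat.card_prod, hcard] at h2
  refine le_trans ?_ h2
  rw [pow_succ]
  exact Nat.mul_le_mul_right 2 h1

theorem pd_all (α : Type) [Fintype α] : PD α :=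
  Fintype.induction_empty_option (P := fun α _ => PD α)
    (fun α β _ e h => pd_equiv α β e h) pd_empty (fun α _ h => pd_option α h) α

end Pool.Agent.U687.PT
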