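import Pool.Agent.U687.PT.Lin
import Pool.Agent.Q283.TQ.Sym

/-!
# The symbols of the primary primes of `D` and the coefficients of the bordered system
-/

set_option autoImplicit false

open scoped Classical

namespace Pool.Agent.U687.PT

open Finset
open Pool.Agent.Y703.CX (lam pp)
open Pool.Agent.Y692.QS
open Pool.Agent.Y715.T.Rec (cs nn)
open Pool.Agent.Y715.T.RecG (Pq cs_of)
open Pool.Agent.Y333.CX (pp_spec)
open Pool.Agent.Y405.CT (pq_star)
open Q283.TQ (NSg mu Bs aa bb pq_neg)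

/-- the primary primes above the prime divisors of `D` -/
noncomputable def PP (D : ℕ) : Finset Ei :=
  ((S1 D).image pp ∪ (S1 D).image fun p => star (pp p)) ∪
    (D.primeFactors \ S1 D).image fun q : ℕ => -(q : Ei)

theorem mem_S1 {D p : ℕ} : p ∈ S1 D ↔ p ∈ D.primeFactors ∧ p % 3 = 1 := Finset.mem_filter

theorem S1_prime {D p : ℕ} (h : p ∈ S1 D) : p.Prime := Nat.prime_of_mem_primeFactors (mem_S1.1 h).1

theorem S1_spec {D p : ℕ} (h : p ∈ S1 D) : Pq (pp p) ∧ nr (pp p) = p :=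
  pp_spec (S1_prime h) (mem_S1.1 h).2

theorem mem_PP {D : ℕ} {e : Ei} : e ∈ PP D ↔ (∃ p ∈ S1 D, pp p = e) ∨
    (∃ p ∈ S1 D, star (pp p) = e) ∨ ∃ q ∈ D.primeFactors \ S1 D, -(q : Ei) = e := by
  unfold PP
  rw [Finset.mem_union, Finset.mem_union, Finset.mem_image, Finset.mem_image, Finset.mem_image,
    or_assoc]

theorem mod_two {D q : ℕ} (hD : Bs D) (h : q ∈ D.primeFactors \ S1 D) : q.Prime ∧ q % 3 = 2 := by
  rw [Finset.mem_sdiff, mem_S1] at h
  refine ⟨Nat.prime_of_mem_primeFactors h.1, ?_⟩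
  rcases hD.case q h.1 with h1 | h1
  · exact absurd ⟨h.1, h1⟩ h.2
  · exact h1

theorem pq_PP {D : ℕ} (hD : Bs D) : ∀ e ∈ PP D, Pq e := by
  intro e he
  rcases mem_PP.1 he with ⟨p, hp, rfl⟩ | ⟨p, hp, rfl⟩ | ⟨q, hq, rfl⟩
  · exact (S1_spec hp).1
  · exact pq_star (S1_spec hp).1
  · obtain ⟨h1, h2⟩ := mod_two hD hq
    exact pq_neg h1 h2

theorem nr_neg' (x : Ei) : nr (-x) = nr x := by
  unfold nr
  rw [QuadraticAlgebra.re_neg, QuadraticAlgebra.im_neg]
  ring

theorem not_star {D p p' : ℕ} (hp : p ∈ S1 D) (hp' : p' ∈ S1 D) : pp p ≠ star (pp p') := by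
  intro h
  have h1 := (S1_spec hp).2
  have h2 := (S1_spec hp').2
  have h3 : (p : ℤ) = p' := by rw [← h1, h, nr_star, h2]
  have h4 : p = p' := by exact_mod_cast h3
  subst h4
  have h5 := congrArg QuadraticAlgebra.im h
  rw [star_im] at h5
  have h6 : (pp p).im = 0 := by omega
  have h7 : (pp p).re ^ 2 = p := by
    rw [← h1]
    unfold nr
    rw [h6]
    ring
  have h8 : (pp p).re.natAbs ^ 2 = p := by
    zify
    rw [sq_abs]
    exact h7
  exact (Nat.Prime.not_prime_pow (x := (pp p).re.natAbs) (le_refl 2))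
    (by rw [h8]; exact S1_prime hp)

theorem nr_sq {p q : ℕ} (hp : p.Prime) : ((p : ℕ) : ℤ) ≠ nr (-(q : Ei)) := by
  rw [nr_neg', nr_nat]
  intro h
  have h1 : p = q ^ 2 := by exact_mod_cast h
  exact (Nat.Prime.not_prime_pow (x := q) (le_refl 2)) (by rw [← h1]; exact hp)

theorem card_PP {D : ℕ} (hD : Bs D) : (PP D).card = 2 * (S1 D).card + 1 := by
  obtain ⟨q, hqm, hq2, hqn, hpf⟩ := exists_q hD
  have hinj : Set.InjOn pp (S1 D : Set ℕ) := by
    intro p hp p' hp' h
    have h1 := (S1_spec hp).2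
    rw [h, (S1_spec hp').2] at h1
    exact_mod_cast h1.symm
  have hinj2 : Set.InjOn (fun p => star (pp p)) (S1 D : Set ℕ) := by
    intro p hp p' hp' h
    exact hinj hp hp' (star_injective h)
  unfold PP
  rw [Finset.card_union_of_disjoint, Finset.card_union_of_disjoint,
    Finset.card_image_of_injOn hinj, Finset.card_image_of_injOn hinj2]
  · have e1 : D.primeFactors \ S1 D = {q} := by
      rw [hpf]
      ext x
      rw [Finset.mem_sdiff, Finset.mem_insert, Finset.mem_singleton]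
      constructor
      · rintro ⟨h1 | h1, h2⟩
        · exact h1
        · exact absurd h1 h2
      · rintro rfl
        exact ⟨Or.inl rfl, hqn⟩
    rw [e1, Finset.image_singleton, Finset.card_singleton]
    ring
  · rw [Finset.disjoint_left]
    intro e h1 h2
    obtain ⟨p, hp, rfl⟩ := Finset.mem_image.1 h1
    obtain ⟨p', hp', h3⟩ := Finset.mem_image.1 h2
    exact not_star hp hp' h3.symm
  · rw [Finset.disjoint_left]
    intro e h1 h2
    obtain ⟨r, hr, rfl⟩ := Finset.mem_image.1 h2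
    rcases Finset.mem_union.1 h1 with h3 | h3
    · obtain ⟨p, hp, h4⟩ := Finset.mem_image.1 h3
      have h5 := (S1_spec hp).2
      rw [h4] at h5
      exact nr_sq (S1_prime hp) h5.symm
    · obtain ⟨p, hp, h4⟩ := Finset.mem_image.1 h3
      have h5 := (S1_spec hp).2
      rw [← nr_star, h4] at h5
      exact nr_sq (S1_prime hp) h5.symm

/-- extension by zero -/
noncomputable def extE {P : Finset Ei} (x : P → ZMod 3) (e : Ei) : ZMod 3 :=
  if h : e ∈ P then x ⟨e, h⟩ else 0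

theorem extE_of {P : Finset Ei} (x : P → ZMod 3) (e : P) : extE x (e : Ei) = x e := by
  unfold extE
  rw [dif_pos e.2]

/-- the coefficients -/
noncomputable def Phi (D : ℕ) (x : PP D → ZMod 3) :
    (S1 D → ZMod 3) × (D.primeFactors → ZMod 3) :=
  (fun p => extE x (pp p) - extE x (star (pp p)),
    fun r => if (r : ℕ) % 3 = 1 then extE x (pp r) + extE x (star (pp r)) else extE x (-((r : ℕ) : Ei)))

theorem Phi_inj (D : ℕ) : Function.Injective (Phi D) := by
  intro x y h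
  have h3 : (3 : ZMod 3) = 0 := rfl
  have ha : ∀ p : S1 D, extE x (pp p) - extE x (star (pp p)) = extE y (pp p) - extE y (star (pp p)) :=
    fun p => congrFun (congrArg Prod.fst h) p
  have hb : ∀ p : S1 D, extE x (pp p) + extE x (star (pp p)) = extE y (pp p) + extE y (star (pp p)) := by
    intro p
    obtain ⟨h1, h2⟩ := mem_S1.1 p.2
    have h4 := congrFun (congrArg Prod.snd h) ⟨p, h1⟩
    unfold Phi at h4
    simp only at h4
    rw [if_pos h2, if_pos h2] at h4
    exact h4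
  funext e
  rw [← extE_of x e, ← extE_of y e]
  rcases mem_PP.1 e.2 with ⟨p, hp, h1⟩ | ⟨p, hp, h1⟩ | ⟨q, hq, h1⟩
  · rw [← h1]
    linear_combination -ha ⟨p, hp⟩ - hb ⟨p, hp⟩ + (extE x (pp p) - extE y (pp p)) * h3
  · rw [← h1]
    linear_combination ha ⟨p, hp⟩ - hb ⟨p, hp⟩ + (extE x (star (pp p)) - extE y (star (pp p))) * h3
  · rw [← h1]
    rw [Finset.mem_sdiff, mem_S1] at hq
    have h4 := congrFun (congrArg Prod.snd h) ⟨q, hq.1⟩
    unfold Phi at h4
    simp only at h4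
    rw [if_neg (fun h5 => hq.2 ⟨hq.1, h5⟩), if_neg (fun h5 => hq.2 ⟨hq.1, h5⟩)] at h4
    exact h4

theorem Phi_bij {D : ℕ} (hD : Bs D) : Function.Bijective (Phi D) := by
  rw [Fintype.bijective_iff_injective_and_card]
  refine ⟨Phi_inj D, ?_⟩
  obtain ⟨q, hqm, hq2, hqn, hpf⟩ := exists_q hD
  have e1 : D.primeFactors.card = (S1 D).card + 1 := by
    conv_lhs => rw [hpf]
    exact Finset.card_insert_of_notMem hqn
  rw [Fintype.card_fun, Fintype.card_prod, Fintype.card_fun, Fintype.card_fun, Fintype.card_coe,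
    Fintype.card_coe, Fintype.card_coe, card_PP hD, e1, ZMod.card, ← pow_add]
  congr 1
  ring

theorem card_Phi {D : ℕ} (hD : Bs D) :
    Nat.card {x : PP D → ZMod 3 // NSg D (ext0 (Phi D x).1) (ext0 (Phi D x).2)} = good D := by
  unfold good
  exact Nat.card_congr ((Equiv.ofBijective _ (Phi_bij hD)).subtypeEquiv fun x => Iff.rfl)

/-- the coefficients for the symbols of a primary prime -/
theorem nsg_iff (D : ℕ) (π : Ei) :
    NSg D (ext0 (Phi D fun q : PP D => cs π q).1) (ext0 (Phi D fun q : PP D => cs π q).2) ↔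
      NSg D (aa π) (bb π) := by
  have hx : ∀ e ∈ PP D, extE (fun q : PP D => cs π q) e = cs π e := fun e he =>
    extE_of (fun q : PP D => cs π q) ⟨e, he⟩
  have ha : ∀ p ∈ D.primeFactors, p % 3 = 1 →
      ext0 (Phi D fun q : PP D => cs π q).1 p = aa π p := by
    intro p hp hp1
    have hm : p ∈ S1 D := mem_S1.2 ⟨hp, hp1⟩
    have e1 := ext0_of (Phi D fun q : PP D => cs π q).1 ⟨p, hm⟩
    refine e1.trans ?_
    show extE _ (pp p) - extE _ (star (pp p)) = _
    rw [hx _ (mem_PP.2 (Or.inl ⟨p, hm, rfl⟩)), hx _ (mem_PP.2 (Or.inr (Or.inl ⟨p, hm, rfl⟩)))]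
    rfl
  have hb : ∀ r ∈ D.primeFactors, ext0 (Phi D fun q : PP D => cs π q).2 r = bb π r := by
    intro r hr
    have e1 := ext0_of (Phi D fun q : PP D => cs π q).2 ⟨r, hr⟩
    refine e1.trans ?_
    show (if r % 3 = 1 then _ else _) = _
    unfold bb
    by_cases h1 : r % 3 = 1
    · have hm : r ∈ S1 D := mem_S1.2 ⟨hr, h1⟩
      rw [if_pos h1, if_pos h1, hx _ (mem_PP.2 (Or.inl ⟨r, hm, rfl⟩)),
        hx _ (mem_PP.2 (Or.inr (Or.inl ⟨r, hm, rfl⟩)))]
    · rw [if_neg h1, if_neg h1]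
      refine hx _ (mem_PP.2 (Or.inr (Or.inr ⟨r, ?_, rfl⟩)))
      rw [Finset.mem_sdiff, mem_S1]
      exact ⟨hr, fun h => h1 h.2⟩
  exact ⟨fun h => h.congr ha hb, fun h => h.congr (fun p hp hp1 => (ha p hp hp1).symm)
    fun r hr => (hb r hr).symm⟩

/-- the symbol of the root of unity -/
theorem cs_w {π : Ei} (hπ : Pq π) {l : ℕ} (hl1 : l % 3 = 1) (hn : nr π = l) :
    cs π w = ((l / 3 : ℕ) : ZMod 3) := by
  apply cs_of hπ.prime hπ.norm
  have h1 : nn π = l / 3 := by
    unfold nn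
    rw [hn]
    omega
  have h2 : w ^ nn π = w ^ (((l / 3 : ℕ) : ZMod 3)).val := by
    rw [h1, ZMod.val_natCast]
    conv_lhs => rw [← Nat.div_add_mod (l / 3) 3]
    rw [pow_add, pow_mul, w_cube, one_pow, one_mul]
  rw [h2, sub_self]
  exact dvd_zero _

end Pool.Agent.U687.PT
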