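import Pool.Agent.U687.PT.Field
import Pool.Agent.U687.PT.Sys
import Pool.Agent.Q283.TC.Main

/-!
# The proportion of the primes `l` such that `D l` does not split
-/

set_option autoImplicit false

open scoped Classical

namespace Pool.Agent.U687.PT

open Finset Filter Topology
open Pool.Agent.Y703.CX (lam pp)
open Pool.Agent.Y703.CT (NoSplit)
open Pool.Agent.Y692.QS
open Pool.Agent.Y715.T.Rec (cs nn)
open Pool.Agent.Y715.T.RecG (Pq cs_of)
open Pool.Agent.Y333.CX (pp_spec)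
open Pool.Agent.Y405.CT (pq_star)
open Q283.TQ (NSg mu Bs aa bb pq_neg crit eq_or_star)
open Q283.TC (FT NT Dat NT_split few_inert sqrt_div_pc mod_three HH)
open Pool.Agent.W401.Cheb (M pr mem_pr M_congr)

theorem FT_tendsto {T : Ei → Prop} {c : ℝ}
    (h : Tendsto (fun X : ℕ => (NT T X : ℝ) / (Nat.primeCounting X : ℝ)) atTop (𝓝 c)) :
    Tendsto (M fun p => (FT T p : ℝ)) atTop (𝓝 c) := by
  have h1 : Tendsto (fun X : ℕ =>
      (({π : Ei | Pq π ∧ nr π ≤ X ∧ T π ∧ ¬ (nr π).natAbs.Prime}.ncard : ℕ) : ℝ) /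
        (Nat.primeCounting X : ℝ)) atTop (𝓝 0) := by
    refine squeeze_zero (fun X => by positivity) (fun X => ?_) sqrt_div_pc
    refine div_le_div_of_nonneg_right ?_ (Nat.cast_nonneg _)
    exact_mod_cast few_inert T X
  have h2 := h.sub h1
  rw [sub_zero] at h2
  refine h2.congr fun X => ?_
  rw [NT_split]
  unfold M
  push_cast
  rw [← sub_div, add_sub_cancel_right]

theorem FT_eq {p : ℕ} (hp : p.Prime) (h3 : p ≠ 3) (T : Ei → Prop) (R : Prop) [Decidable R]
    (hT : p % 3 = 1 → ∀ π, Pq π → nr π = p → (T π ↔ R)) (hR : R → p % 3 = 1) :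
    (FT T p : ℝ) = if R then 2 else 0 := by
  by_cases hr : R
  · rw [if_pos hr]
    have h1 := hR hr
    obtain ⟨hπ, hn⟩ := pp_spec hp h1
    have hm : p ∈ S1 p := mem_S1.2 ⟨Nat.mem_primeFactors.2 ⟨hp, dvd_refl p, hp.ne_zero⟩, h1⟩
    have e1 : {π : Ei | Pq π ∧ nr π = p ∧ T π} = {pp p, star (pp p)} := by
      ext π
      rw [Set.mem_setOf_eq, Set.mem_insert_iff, Set.mem_singleton_iff]
      constructor
      · rintro ⟨h4, h5, -⟩
        exact eq_or_star hπ hn hp h4 h5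
      · rintro (rfl | rfl)
        · exact ⟨hπ, hn, (hT h1 _ hπ hn).2 hr⟩
        · have hn' : nr (star (pp p)) = p := by rw [nr_star, hn]
          exact ⟨pq_star hπ, hn', (hT h1 _ (pq_star hπ) hn').2 hr⟩
    have e2 : FT T p = 2 := by
      have e3 : FT T p = Set.ncard {π : Ei | Pq π ∧ nr π = p ∧ T π} := rfl
      rw [e3, e1, Set.ncard_pair (not_star hm hm)]
    rw [e2]
    norm_num
  · rw [if_neg hr]
    have e1 : IsEmpty {π : Ei // Pq π ∧ nr π = p ∧ T π} := by
      refine ⟨fun π => ?_⟩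
      obtain ⟨h4, h5, h6⟩ := π.2
      exact hr ((hT (mod_three h5 hp h3) _ h4 h5).1 h6)
    unfold FT
    rw [Nat.card_of_isEmpty]
    norm_num

theorem sum_two (C : ℕ → Prop) [DecidablePred C] (X : ℕ) : ∑ p ∈ pr X, (if C p then (2 : ℝ) else 0) =
    2 * (((Icc 1 X).filter fun l => l.Prime ∧ C l).card : ℝ) := by
  rw [← Finset.sum_filter, Finset.sum_const, nsmul_eq_mul, mul_comm]
  congr 3
  ext l
  rw [Finset.mem_filter, Finset.mem_filter, mem_pr, Finset.mem_Icc]
  constructor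
  · rintro ⟨⟨h1, h2⟩, h3⟩
    exact ⟨⟨h2.pos, h1⟩, h2, h3⟩
  · rintro ⟨⟨h1, h2⟩, h3, h4⟩
    exact ⟨⟨h2, h3⟩, h4⟩

theorem class_eq {l j : ℕ} (hj : j = 1 ∨ j = 4 ∨ j = 7) (h : l % 3 = 1) :
    ((l / 3 : ℕ) : ZMod 3) = ((j / 3 : ℕ) : ZMod 3) ↔ l % 9 = j := by
  rw [ZMod.natCast_eq_natCast_iff, Nat.ModEq]
  rcases hj with rfl | rfl | rfl <;> omega

/-- the law, for the primes in a residue class modulo `9` -/
theorem law {D : ℕ} (hD : Bs D) {j : ℕ} (hj : j = 1 ∨ j = 4 ∨ j = 7) (R : ℕ → Prop)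
    (hR : ∀ l : ℕ, l.Prime → ¬ l ∣ D → l % 9 = j → (R l ↔ NoSplit (D * l))) :
    Tendsto (fun X : ℕ =>
      (((Icc 1 X).filter fun l => l.Prime ∧ l % 9 = j ∧ R l).card : ℝ) /
        (((Icc 1 X).filter fun l => l.Prime ∧ l % 9 = j).card : ℝ)) atTop
      (𝓝 ((good D : ℝ) / 3 ^ (2 * (S1 D).card + 1))) := by
  have hP := pq_PP hD
  have hwP : w ∉ PP D := by
    intro h
    apply (hP w h).prime.not_isUnit
    rw [Pool.Agent.Y692.QS.isUnit_iff]; decide
  obtain ⟨L, hL, hN, hG, ⟨E⟩⟩ := exists_dat (PP D) hwP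
  set y0 : ZMod 3 := ((j / 3 : ℕ) : ZMod 3) with hy0
  set N := (PP D).card with hNd
  set κ : ℝ := 2 * (Nat.card (HH E.Z) : ℝ) / (Nat.card Gal(L/ℚ) : ℝ) with hκ
  have hκ0 : 0 < κ := by
    have h1 := Nat.card_pos (α := HH E.Z)
    have h2 := Nat.card_pos (α := Gal(L/ℚ))
    positivity
  -- the two densities
  have d1 := E.dens hP (fun z => z.2 = y0 ∧ NSg D (ext0 (Phi D z.1).1) (ext0 (Phi D z.1).2))
    (fun π => cs π w = y0 ∧ NSg D (aa π) (bb π))
    (fun π _ _ => and_congr Iff.rfl (nsg_iff D π).symm)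
  have d0 := E.dens hP (fun z => z.2 = y0) (fun π => cs π w = y0) (fun π _ _ => Iff.rfl)
  have c1 : Nat.card {z : (PP D → ZMod 3) × ZMod 3 //
      z.2 = y0 ∧ NSg D (ext0 (Phi D z.1).1) (ext0 (Phi D z.1).2)} = good D := by
    rw [← card_Phi hD]
    refine Nat.card_congr
      { toFun := fun z => ⟨z.1.1, z.2.2⟩
        invFun := fun x => ⟨(x.1, y0), rfl, x.2⟩
        left_inv := fun z => Subtype.ext (Prod.ext rfl z.2.1.symm)
        right_inv := fun x => rfl }
  have c0 : Nat.card {z : (PP D → ZMod 3) × ZMod 3 // z.2 = y0} = 3 ^ N := by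
    have e1 : Nat.card (PP D → ZMod 3) = 3 ^ N := by
      rw [Nat.card_fun]
      simp [hNd]
    rw [← e1]
    refine Nat.card_congr
      { toFun := fun z => z.1.1
        invFun := fun x => ⟨(x, y0), rfl⟩
        left_inv := fun z => Subtype.ext (Prod.ext rfl z.2.symm)
        right_inv := fun x => rfl }
  rw [c1] at d1
  rw [c0] at d0
  have f1 := FT_tendsto d1
  have f0 := FT_tendsto d0
  have hD0 : 0 < 3 * D := by
    have := Nat.pos_of_ne_zero hD.ne_zero
    omega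
  have g1 : Tendsto (M fun p => if p % 9 = j ∧ R p then (2 : ℝ) else 0) atTop
      (𝓝 (κ * ((good D : ℝ) / 3 ^ (N + 1)))) := by
    refine M_congr hD0 (fun p hp hpD => ?_) f1
    have h3 : p ≠ 3 := by
      rintro rfl
      exact hpD (dvd_mul_right _ _)
    have hpD' : ¬ p ∣ D := fun h => hpD (h.mul_left _)
    symm
    refine FT_eq hp h3 _ _ (fun h1 π hπ hn => ?_) (fun h => ?_)
    · show (cs π w = y0 ∧ NSg D (aa π) (bb π)) ↔ _
      rw [cs_w hπ h1 hn, class_eq hj h1]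
      refine and_congr_right fun h9 => ?_
      rw [hR p hp hpD' h9, crit hD hp h1 hpD' hπ hn]
    · have h9 := h.1
      rcases hj with rfl | rfl | rfl <;> omega
  have g0 : Tendsto (M fun p => if p % 9 = j then (2 : ℝ) else 0) atTop
      (𝓝 (κ * (((3 ^ N : ℕ) : ℝ) / 3 ^ (N + 1)))) := by
    refine M_congr hD0 (fun p hp hpD => ?_) f0
    have h3 : p ≠ 3 := by
      rintro rfl
      exact hpD (dvd_mul_right _ _)
    symm
    refine FT_eq hp h3 _ _ (fun h1 π hπ hn => ?_) (fun h9 => ?_)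
    · show cs π w = y0 ↔ _
      rw [cs_w hπ h1 hn, class_eq hj h1]
    · rcases hj with rfl | rfl | rfl <;> omega
  have h6 := g1.div g0 (by positivity)
  have h7 : κ * ((good D : ℝ) / 3 ^ (N + 1)) / (κ * (((3 ^ N : ℕ) : ℝ) / 3 ^ (N + 1))) =
      (good D : ℝ) / 3 ^ (2 * (S1 D).card + 1) := by
    have hN2 : N = 2 * (S1 D).card + 1 := card_PP hD
    rw [← hN2]
    push_cast
    field_simp
  rw [h7] at h6
  refine h6.congr' ?_
  filter_upwards [eventually_ge_atTop 2] with X hX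
  have hpc : (Nat.primeCounting X : ℝ) ≠ 0 := by
    have : 0 < Nat.primeCounting X := by
      have h := Nat.monotone_primeCounting hX
      have h2 : Nat.primeCounting 2 = 1 := by decide
      omega
    positivity
  show M _ X / M _ X = _
  unfold M
  rw [div_div_div_cancel_right₀ hpc]
  have e1 := sum_two (fun p => p % 9 = j ∧ R p) X
  have e0 := sum_two (fun p => p % 9 = j) X
  refine (congrArg₂ (· / ·) e1 e0).trans ?_
  show 2 * _ / (2 * _) = _
  rw [mul_div_mul_left _ _ two_ne_zero]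

end Pool.Agent.U687.PT
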