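import Pool.Agent.U687.PT.Diag
import Pool.Agent.Q283.TQ.Mat

/-!
# The number of the nonsingular perturbed and bordered systems
-/

set_option autoImplicit false

open scoped Classical

namespace Pool.Agent.U687.PT

open Finset Matrix
open Pool.Agent.Y703.CX (lam)
open Q283.TQ (NSg mu Bs)

/-- the prime divisors which are `1` modulo `3` -/
def S1 (D : ℕ) : Finset ℕ := D.primeFactors.filter fun p => p % 3 = 1

/-- extension by zero -/
noncomputable def ext0 {S : Finset ℕ} (a : S → ZMod 3) (n : ℕ) : ZMod 3 :=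
  if h : n ∈ S then a ⟨n, h⟩ else 0

theorem ext0_of {S : Finset ℕ} (a : S → ZMod 3) (n : S) : ext0 a (n : ℕ) = a n := by
  unfold ext0
  rw [dif_pos n.2]

/-- the number of the nonsingular systems -/
noncomputable def good (D : ℕ) : ℕ :=
  Nat.card {x : (S1 D → ZMod 3) × (D.primeFactors → ZMod 3) // NSg D (ext0 x.1) (ext0 x.2)}

theorem exists_q {D : ℕ} (hD : Bs D) : ∃ q ∈ D.primeFactors, q % 3 = 2 ∧ q ∉ S1 D ∧
    D.primeFactors = insert q (S1 D) := by
  obtain ⟨⟨h0, -, -⟩, q, hq, hq2, hqD, hall⟩ := hD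
  have hqm : q ∈ D.primeFactors := Nat.mem_primeFactors.2 ⟨hq, hqD, h0⟩
  have hqn : q ∉ S1 D := by
    intro h
    have := (Finset.mem_filter.1 h).2
    omega
  refine ⟨q, hqm, hq2, hqn, ?_⟩
  ext p
  rw [Finset.mem_insert]
  constructor
  · intro hp
    by_cases hpq : p = q
    · exact Or.inl hpq
    · right
      exact Finset.mem_filter.2 ⟨hp, hall p (Nat.prime_of_mem_primeFactors hp)
        (Nat.dvd_of_mem_primeFactors hp) hpq⟩
  · rintro (rfl | hp)
    · exact hqm
    · exact (Finset.mem_filter.1 hp).1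

theorem good_ge {D : ℕ} (hD : Bs D) : 2 ^ ((S1 D).card + 1) * 3 ^ (S1 D).card ≤ good D := by
  obtain ⟨q, hqm, hq2, hqn, hpf⟩ := exists_q hD
  have hmq : mu D q ≠ 0 := hD.mu_ne q hqm
  set A : Matrix (S1 D) (S1 D) (ZMod 3) := Matrix.of fun p r =>
    mu D r * lam p r - (if p = r then ∑ s ∈ D.primeFactors, mu D s * lam p s else 0) with hA
  have h1 := pd_all (S1 D) inferInstance A
  rw [Fintype.card_coe] at h1
  -- the solution
  set v : S1 D → ZMod 3 := fun p => -(mu D q * lam p q) with hv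
  set g0 : (S1 D → ZMod 3) → S1 D → ZMod 3 := fun a => (A + diagonal a)⁻¹ *ᵥ v with hg0
  have hg0s : ∀ a : S1 D → ZMod 3, (A + diagonal a).det ≠ 0 → (A + diagonal a) *ᵥ g0 a = v := by
    intro a ha
    rw [hg0]
    simp only
    rw [Matrix.mulVec_mulVec, Matrix.mul_nonsing_inv _ (Ne.isUnit ha), Matrix.one_mulVec]
  have hsplit : ∀ F : ℕ → ZMod 3, ∑ r ∈ D.primeFactors, F r = F q + ∑ r : S1 D, F r := by
    intro F
    rw [hpf, Finset.sum_insert hqn, Finset.sum_coe_sort (S1 D) F]
  have hAg : ∀ (a : S1 D → ZMod 3) (g : ℕ → ZMod 3) (p : S1 D),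
      ((A + diagonal a) *ᵥ fun r : S1 D => g r) p =
        ∑ r ∈ D.primeFactors, mu D r * lam p r * (g r - g p) + a p * g p -
          mu D q * lam p q * g q := by
    intro a g p
    rw [Matrix.add_mulVec, Pi.add_apply, Matrix.mulVec_diagonal]
    have e1 : (A *ᵥ fun r : S1 D => g r) p = ∑ r : S1 D, mu D r * lam p r * g r -
        (∑ s ∈ D.primeFactors, mu D s * lam p s) * g p := by
      rw [Matrix.mulVec, dotProduct]
      have e2 : ∀ r : S1 D, A p r * g r = mu D r * lam p r * g r -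
          (if p = r then (∑ s ∈ D.primeFactors, mu D s * lam p s) * g p else 0) := by
        intro r
        rw [hA, Matrix.of_apply, sub_mul]
        congr 1
        by_cases h : p = r
        · rw [if_pos h, if_pos h, h]
        · rw [if_neg h, if_neg h, zero_mul]
      rw [Finset.sum_congr rfl fun r _ => e2 r, Finset.sum_sub_distrib, Finset.sum_ite_eq,
        if_pos (Finset.mem_univ _)]
    have e3 : ∑ r ∈ D.primeFactors, mu D r * lam p r * (g r - g p) =
        (mu D q * lam p q * g q + ∑ r : S1 D, mu D r * lam p r * g r) -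
          (∑ s ∈ D.primeFactors, mu D s * lam p s) * g p := by
      rw [← hsplit fun r => mu D r * lam p r * g r, Finset.sum_mul, ← Finset.sum_sub_distrib]
      exact Finset.sum_congr rfl fun r _ => by ring
    rw [e1, e3]
    ring
  -- every solution is a multiple
  have key : ∀ (a : S1 D → ZMod 3), (A + diagonal a).det ≠ 0 → ∀ g : ℕ → ZMod 3,
      (∀ p ∈ D.primeFactors, p % 3 = 1 →
        ∑ r ∈ D.primeFactors, mu D r * lam p r * (g r - g p) = ext0 (-a) p * g p) →
      ∀ r : S1 D, g r = g q * g0 a r := by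
    intro a ha g hg r
    have h2 : (A + diagonal a) *ᵥ ((fun r : S1 D => g r) - g q • g0 a) = 0 := by
      rw [Matrix.mulVec_sub, Matrix.mulVec_smul, hg0s a ha]
      funext p
      rw [Pi.sub_apply, hAg, Pi.smul_apply, smul_eq_mul, Pi.zero_apply,
        hg p (Finset.mem_filter.1 p.2).1 (Finset.mem_filter.1 p.2).2, ext0_of, Pi.neg_apply, hv]
      ring
    have h3 := Matrix.eq_zero_of_mulVec_eq_zero ha h2
    have h4 := congrFun h3 r
    rw [Pi.sub_apply, Pi.smul_apply, smul_eq_mul, Pi.zero_apply] at h4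
    exact sub_eq_zero.1 h4
  -- the border
  set bb : (S1 D → ZMod 3) → (S1 D → ZMod 3) → ZMod 3 → D.primeFactors → ZMod 3 :=
    fun a b t r => if (r : ℕ) = q then (t - ∑ r : S1 D, mu D r * b r * g0 a r) * (mu D q)⁻¹
      else ext0 b r with hbb
  have hbbS : ∀ (a b : S1 D → ZMod 3) (t : ZMod 3) (r : S1 D), ext0 (bb a b t) r = b r := by
    intro a b t r
    have hr : (r : ℕ) ∈ D.primeFactors := (Finset.mem_filter.1 r.2).1
    have hrq : (r : ℕ) ≠ q := by
      intro h
      apply hqn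
      rw [← h]
      exact r.2
    have e1 : ext0 (bb a b t) r = bb a b t ⟨r, hr⟩ := ext0_of (bb a b t) ⟨r, hr⟩
    rw [e1, hbb]
    show (if (r : ℕ) = q then _ else ext0 b r) = _
    rw [if_neg hrq, ext0_of]
  have hbbq : ∀ (a b : S1 D → ZMod 3) (t : ZMod 3), ext0 (bb a b t) q =
      (t - ∑ r : S1 D, mu D r * b r * g0 a r) * (mu D q)⁻¹ := by
    intro a b t
    have e1 : ext0 (bb a b t) q = bb a b t ⟨q, hqm⟩ := ext0_of (bb a b t) ⟨q, hqm⟩
    rw [e1, hbb]
    exact if_pos rfl
  have hNS : ∀ (a b : S1 D → ZMod 3) (t : ZMod 3), (A + diagonal a).det ≠ 0 → t ≠ 0 →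
      NSg D (ext0 (-a)) (ext0 (bb a b t)) := by
    intro a b t ha ht g h2 h3
    have h4 := key a ha g h2
    rw [hsplit fun r => mu D r * ext0 (bb a b t) r * g r] at h3
    have h5 : ∑ r : S1 D, mu D r * ext0 (bb a b t) r * g r =
        g q * ∑ r : S1 D, mu D r * b r * g0 a r := by
      rw [Finset.mul_sum]
      refine Finset.sum_congr rfl fun r _ => ?_
      rw [hbbS, h4 r]
      ring
    rw [h5, hbbq] at h3
    have h6 : g q * t = 0 := by
      have h7 : mu D q * (mu D q)⁻¹ = 1 := mul_inv_cancel₀ hmq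
      linear_combination h3 - (t - ∑ r : S1 D, mu D r * b r * g0 a r) * g q * h7
    have h7 : g q = 0 := by
      rcases mul_eq_zero.1 h6 with h | h
      · exact h
      · exact absurd h ht
    intro p hp
    rw [hpf, Finset.mem_insert] at hp
    rcases hp with rfl | hp
    · exact h7
    · rw [h4 ⟨p, hp⟩, h7, zero_mul]
  have hcard : Nat.card {t : ZMod 3 // t ≠ 0} = 2 := by
    rw [Nat.card_eq_fintype_card]; decide
  have hinj : Function.Injective
      (fun y : {a : S1 D → ZMod 3 // (A + diagonal a).det ≠ 0} × {t : ZMod 3 // t ≠ 0} ×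
          (S1 D → ZMod 3) =>
        (⟨(-y.1.1, bb y.1.1 y.2.2 y.2.1.1), hNS y.1.1 y.2.2 y.2.1.1 y.1.2 y.2.1.2⟩ :
          {x : (S1 D → ZMod 3) × (D.primeFactors → ZMod 3) // NSg D (ext0 x.1) (ext0 x.2)})) := by
    rintro ⟨a, t, b⟩ ⟨a', t', b'⟩ hh
    have h2 := congrArg Subtype.val hh
    simp only [Prod.mk.injEq] at h2
    obtain ⟨h2, h3⟩ := h2
    have h4 : a = a' := Subtype.ext (neg_injective h2)
    subst h4
    have h5 : b = b' := by
      funext r
      rw [← hbbS a.1 b t.1 r, ← hbbS a.1 b' t'.1 r, h3]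
    subst h5
    have h6 : t = t' := by
      apply Subtype.ext
      have h7 := hbbq a.1 b t.1
      rw [h3, hbbq a.1 b t'.1] at h7
      have h8 : (mu D q)⁻¹ ≠ 0 := inv_ne_zero hmq
      have h9 := mul_right_cancel₀ h8 h7
      linear_combination -h9
    rw [h6]
  have h2 := Nat.card_le_card_of_injective _ hinj
  rw [Nat.card_prod, Nat.card_prod, hcard] at h2
  have h3 : Nat.card (S1 D → ZMod 3) = 3 ^ (S1 D).card := by
    rw [Nat.card_fun]
    simp
  rw [h3] at h2
  refine le_trans ?_ h2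
  rw [pow_succ, mul_assoc]
  exact Nat.mul_le_mul_right _ h1

end Pool.Agent.U687.PT
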